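import Mathlib

set_option autoImplicit false

namespace Pool.Agent.Results.MP_ab5103_an.NoCutDown

open Set Filter Topology

/-- the Hilbert space `ℓ₂(X)` -/
abbrev H (X : Type) : Type := lp (fun _ : X => ℂ) 2

open Classical in
/-- the standard basis vector -/
noncomputable def δ {X : Type} (x : X) : H X := lp.single 2 x 1

/-- uniformly locally finite -/
def ULF (X : Type) [MetricSpace X] : Prop :=
  ∀ r : ℝ, ∃ N : ℕ, ∀ x : X, (Metric.closedBall x r).encard ≤ N

/-- the bounded operators on `ℓ₂(X)` -/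
abbrev B (X : Type) : Type := H X →L[ℂ] H X

/-- the matrix entry of `a` at `(x, y)` -/
noncomputable def entry {X : Type} (a : B X) (x y : X) : ℂ := inner ℂ (δ x) (a (δ y))

/-- the uniform Roe algebra: the norm closure of the finite propagation operators -/
def roe (X : Type) [MetricSpace X] : Set (B X) :=
  closure {a | ∃ r : ℝ, ∀ x y, entry a x y ≠ 0 → dist x y ≤ r}

/-- property A -/
def PropA (Y : Type) [MetricSpace Y] : Prop :=
  ∀ R ε : ℝ, 0 < R → 0 < ε → ∃ S : ℝ, 0 < S ∧ ∃ ξ : Y → Y → ℝ,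
    (∀ x z, 0 ≤ ξ x z) ∧ (∀ x, HasSum (ξ x) 1) ∧ (∀ x z, ξ x z ≠ 0 → dist x z ≤ S) ∧
      ∀ x y, dist x y ≤ R → ∑' z, |ξ x z - ξ y z| ≤ ε

/-- self-adjoint projections -/
def IsProj {X : Type} (q : B X) : Prop := IsStarProjection q

/-- rank one projections -/
def RankOneProj {X : Type} (q : B X) : Prop :=
  IsProj q ∧ LinearMap.rank (q : H X →ₗ[ℂ] H X) = 1

/-- compact operators -/
def IsCpt {X : Type} (a : B X) : Prop := IsCompactOperator a

/-- the product of two operators -/
noncomputable def mul {X : Type} (a b : B X) : B X := a * b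

/-- the adjoint of an operator -/
noncomputable def adj {X : Type} (a : B X) : B X := star a

/-- the linear combination `c a + b` of operators on a normed space -/
noncomputable def combOp {E : Type} [NormedAddCommGroup E] [NormedSpace ℂ E] (c : ℂ)
    (a b : E →L[ℂ] E) : E →L[ℂ] E := c • a + b

/-- the linear combination `c a + b` of operators on `ℓ₂(X)` -/
noncomputable def comb {X : Type} (c : ℂ) (a b : B X) : B X := combOp c a b

/-- `Φ` is a complex linear, multiplicative, adjoint preserving, injective map sending the uniform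
Roe algebra of `X` into that of `Y` -/
def IsEmb {X Y : Type} [MetricSpace X] [MetricSpace Y] (Φ : B X → B Y) : Prop :=
  (∀ c a b, Φ (comb c a b) = comb c (Φ a) (Φ b)) ∧ (∀ a b, Φ (mul a b) = mul (Φ a) (Φ b)) ∧
    (∀ a, Φ (adj a) = adj (Φ a)) ∧ Function.Injective Φ ∧ Set.MapsTo Φ (roe X) (roe Y)

/-- `p` is a projection in the uniform Roe algebra of `Y` commuting with the image under `Φ` of
the uniform Roe algebra of `X` -/
def CommProj {X Y : Type} [MetricSpace X] [MetricSpace Y] (Φ : B X → B Y) (p : B Y) : Prop :=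
  p ∈ roe Y ∧ IsProj p ∧ ∀ a ∈ roe X, mul p (Φ a) = mul (Φ a) p

/-- the cut-down of `Φ` by `p` -/
noncomputable def cut {X Y : Type} (Φ : B X → B Y) (p : B Y) (a : B X) : B Y :=
  mul (mul p (Φ a)) p

/-- `Ψ` sends rank one projections in the uniform Roe algebra to rank one projections -/
def RankPres {X Y : Type} [MetricSpace X] (Ψ : B X → B Y) : Prop :=
  ∀ q ∈ roe X, RankOneProj q → RankOneProj (Ψ q)

/-- `Ψ` sends compact operators in the uniform Roe algebra to compact operators -/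
def CompactPres {X Y : Type} [MetricSpace X] (Ψ : B X → B Y) : Prop :=
  ∀ a ∈ roe X, IsCpt a → IsCpt (Ψ a)

open Classical in
theorem inner_δ {X : Type} (x y : X) : inner ℂ (δ x) (δ y) = if x = y then 1 else 0 := by
  rw [δ, δ, lp.inner_single_left, lp.single_apply]
  split_ifs with h <;> simp [h]

open Classical in
theorem norm_δ {X : Type} (x : X) : ‖δ x‖ = 1 := by
  rw [δ, lp.norm_single (by simp), norm_one]

open Classical in
theorem ext_δ {X E : Type} [NormedAddCommGroup E] [NormedSpace ℂ E] {f g : H X →L[ℂ] E}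
    (h : ∀ x, f (δ x) = g (δ x)) : f = g := by
  refine lp.ext_continuousLinearMap (by simp) fun x => ContinuousLinearMap.ext_ring ?_
  exact h x

theorem entry_small {X : Type} [MetricSpace X] {p : H X →L[ℂ] H X} (hp : p ∈ roe X) {ε : ℝ}
    (hε : 0 < ε) : ∃ r : ℝ, ∀ x y, r < dist x y → ‖inner ℂ (δ x) (p (δ y))‖ < ε := by
  obtain ⟨a, ⟨r, hr⟩, ha⟩ := Metric.mem_closure_iff.1 hp ε hε
  refine ⟨r, fun x y h => ?_⟩
  have h1 : inner ℂ (δ x) (a (δ y)) = 0 := by
    by_contra h'
    exact (hr x y h').not_gt h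
  have h2 : inner ℂ (δ x) (p (δ y)) = inner ℂ (δ x) ((p - a) (δ y)) := by
    simp [h1]
  rw [h2]
  refine (norm_inner_le_norm _ _).trans_lt ?_
  rw [norm_δ, one_mul]
  refine ((p - a).le_opNorm _).trans_lt ?_
  rwa [norm_δ, mul_one, ← dist_eq_norm]

theorem on_null {E : Type} [NormedAddCommGroup E] [InnerProductSpace ℂ E] {v : ℕ → E}
    (hv : Orthonormal ℂ v) (w : E) : Tendsto (fun n => ‖inner ℂ (v n) w‖) atTop (𝓝 0) := by
  have := (hv.inner_products_summable w).tendsto_atTop_zero.sqrt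
  simpa using this

theorem compact_null {E : Type} [NormedAddCommGroup E] [InnerProductSpace ℂ E] {v : ℕ → E}
    (hv : Orthonormal ℂ v) {K : E →L[ℂ] E} (hK : IsCompactOperator K) :
    Tendsto (fun n => ‖inner ℂ (v n) (K (v n))‖) atTop (𝓝 0) := by
  obtain ⟨S, hS, hS'⟩ := hK.image_closedBall_subset_compact (f := (K : E →ₗ[ℂ] E)) 1
  rw [Metric.tendsto_nhds]
  intro ε hε
  obtain ⟨t, ht, ht'⟩ := Metric.totallyBounded_iff.1 hS.totallyBounded (ε / 2) (by linarith)
  filter_upwards [(eventually_all_finite ht).2 fun w _ =>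
    (on_null hv w).eventually (gt_mem_nhds (show 0 < ε / 2 by linarith))] with n hn
  obtain ⟨w, hw, hw'⟩ := mem_iUnion₂.1 (ht' (hS' ⟨v n, by simp [hv.1 n], rfl⟩))
  rw [dist_zero_right, norm_norm, show K (v n) = w + (K (v n) - w) by abel, inner_add_right]
  have h1 := norm_inner_le_norm (𝕜 := ℂ) (v n) (K (v n) - w)
  rw [hv.1 n, one_mul, ← dist_eq_norm] at h1
  have h2 : dist (K (v n)) w < ε / 2 := hw'
  linarith [norm_add_le (inner ℂ (v n) w) (inner ℂ (v n) (K (v n) - w)), hn w hw]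

def ρ (s t : Finset ℕ) : ℕ := (symmDiff s t).sup (· + 1)

theorem ρ_le {s t : Finset ℕ} {n : ℕ} : ρ s t ≤ n ↔ ∀ i, n ≤ i → (i ∈ s ↔ i ∈ t) := by
  simp only [ρ, Finset.sup_le_iff, Finset.mem_symmDiff]
  refine forall_congr' fun i => ?_
  by_cases h1 : i ∈ s <;> by_cases h2 : i ∈ t <;> simp [h1, h2]

theorem ρ_tri (s t u : Finset ℕ) : ρ s u ≤ ρ s t + ρ t u := ρ_le.2 fun i hi =>
  (ρ_le.1 (le_refl (ρ s t)) i (by omega)).trans (ρ_le.1 (le_refl (ρ t u)) i (by omega))

@[reducible] noncomputable def mC : MetricSpace (Finset ℕ) where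
  dist s t := (ρ s t : ℝ)
  dist_self s := by simp [ρ]
  dist_comm s t := by simp [ρ, symmDiff_comm]
  dist_triangle s t u := by exact_mod_cast ρ_tri s t u
  eq_of_dist_eq_zero := by
    intro s t h
    have : ρ s t ≤ 0 := by exact_mod_cast h.le
    exact Finset.ext fun i => ρ_le.1 this i (Nat.zero_le _)

@[reducible] noncomputable def mX : MetricSpace ℕ :=
  MetricSpace.induced (fun x : ℕ => ({x} : Finset ℕ)) Finset.singleton_injective mC

abbrev Y : Type := ℕ × Finset ℕ

@[reducible] noncomputable def mY : MetricSpace Y := @Prod.metricSpaceMax _ _ mX mC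

theorem ulf_C : @ULF _ mC := by
  intro r
  refine ⟨2 ^ ⌈r⌉₊, fun s => ?_⟩
  have h : {t | (ρ t s : ℝ) ≤ r} ⊆ (fun u : Finset ℕ => symmDiff u s) ''
      ((Finset.range ⌈r⌉₊).powerset : Set (Finset ℕ)) := by
    intro t ht
    have h1 : ρ t s ≤ ⌈r⌉₊ := by exact_mod_cast le_trans ht (Nat.le_ceil r)
    refine ⟨symmDiff t s, Finset.mem_coe.2 (Finset.mem_powerset.2 fun i hi => ?_),
      symmDiff_symmDiff_cancel_right _ _⟩
    by_contra h2
    have := ρ_le.1 h1 i (by simpa using h2)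
    rw [Finset.mem_symmDiff] at hi
    tauto
  refine (encard_le_encard h).trans ((encard_image_le _ _).trans ?_)
  rw [encard_coe_eq_coe_finsetCard]
  simp

theorem ulf_X : @ULF _ mX := by
  intro r
  obtain ⟨N, hN⟩ := ulf_C r
  refine ⟨N, fun x => le_trans ?_ (hN ({x} : Finset ℕ))⟩
  rw [← (Finset.singleton_injective (α := ℕ)).encard_image]
  refine encard_le_encard ?_
  rintro _ ⟨y, hy, rfl⟩
  exact hy

theorem ulf_Y : @ULF _ mY := by
  intro r
  obtain ⟨N, hN⟩ := ulf_X r
  obtain ⟨M, hM⟩ := ulf_C r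
  refine ⟨N * M, fun y => ?_⟩
  refine le_trans (encard_le_encard (t := {x | (ρ {x} {y.1} : ℝ) ≤ r} ×ˢ {t | (ρ t y.2 : ℝ) ≤ r})
    fun z hz => max_le_iff.1 (show max (ρ {z.1} {y.1} : ℝ) (ρ z.2 y.2 : ℝ) ≤ r from hz)) ?_
  rw [encard_prod]
  push_cast
  exact mul_le_mul' (hN _) (hM _)

theorem propA : @PropA _ mY := by
  intro R ε hR hε
  let N := ⌈R⌉₊
  let c : Y → Y := fun y => (if y.1 < N then 0 else y.1, y.2.filter (N ≤ ·))
  refine ⟨N + 1, by positivity, fun y z => if z = c y then 1 else 0, fun x y => ?_,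
    fun x => hasSum_ite_eq _ _, fun x y h => ?_, fun x y h => ?_⟩
  · exact ite_nonneg zero_le_one le_rfl
  · obtain rfl : y = c x := by
      by_contra h'
      exact h (if_neg h')
    refine max_le (a := (ρ {x.1} {(c x).1} : ℝ)) (b := (ρ x.2 (c x).2 : ℝ)) ?_ ?_
    · have : ρ {x.1} {(c x).1} ≤ N + 1 := ρ_le.2 fun i hi => by
        simp only [c, Finset.mem_singleton]
        split_ifs with h1 <;> omega
      exact_mod_cast this
    · have : ρ x.2 (c x).2 ≤ N + 1 := ρ_le.2 fun i hi => by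
        simp only [c, Finset.mem_filter]
        exact (and_iff_left (by omega)).symm
      exact_mod_cast this
  · have h' : (ρ {x.1} {y.1} : ℝ) ≤ R ∧ (ρ x.2 y.2 : ℝ) ≤ R := max_le_iff.1 h
    have h1 : ρ {x.1} {y.1} ≤ N := by exact_mod_cast h'.1.trans (Nat.le_ceil R)
    have h2 : ρ x.2 y.2 ≤ N := by exact_mod_cast h'.2.trans (Nat.le_ceil R)
    have : c x = c y := by
      refine Prod.ext ?_ (Finset.ext fun i => ?_)
      · have h3 := ρ_le.1 h1 x.1
        have h4 := ρ_le.1 h1 y.1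
        simp only [c, Finset.mem_singleton, true_iff, iff_true] at h3 h4 ⊢
        split_ifs <;> omega
      · simp only [c, Finset.mem_filter]
        exact and_congr_left fun hi => ρ_le.1 h2 i hi
    simp [this, hε.le]

def fl (x : ℕ) (s : Finset ℕ) : Finset ℕ := symmDiff s {x}
def sg (x : ℕ) (s : Finset ℕ) : ℂ := if x ∈ s then -1 else 1
noncomputable def κ : ℂ := ((√2)⁻¹ : ℝ)

theorem fl_fl (x : ℕ) (s : Finset ℕ) : fl x (fl x s) = s := symmDiff_symmDiff_cancel_right _ _
theorem mem_fl {x i : ℕ} {s : Finset ℕ} : i ∈ fl x s ↔ (i ∈ s ↔ i ≠ x) := by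
  simp only [fl, Finset.mem_symmDiff, Finset.mem_singleton]
  tauto
theorem fl_ne (x : ℕ) (s : Finset ℕ) : fl x s ≠ s := fun h => by
  have := mem_fl (x := x) (i := x) (s := s)
  rw [h] at this
  tauto
theorem fl_eq {x : ℕ} {s t : Finset ℕ} : fl x s = t ↔ s = fl x t :=
  ⟨fun h => by rw [← h, fl_fl], fun h => by rw [h, fl_fl]⟩
theorem sg_fl (x : ℕ) (s : Finset ℕ) : sg x (fl x s) = -sg x s := by
  by_cases h : x ∈ s <;> simp [sg, mem_fl, h]
theorem sg_sq (x : ℕ) (s : Finset ℕ) : sg x s * sg x s = 1 := by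
  by_cases h : x ∈ s <;> simp [sg, h]
theorem sg_conj (x : ℕ) (s : Finset ℕ) : starRingEnd ℂ (sg x s) = sg x s := by
  by_cases h : x ∈ s <;> simp [sg, h]
theorem κ_sq : κ * κ = 1 / 2 := by
  rw [κ, ← Complex.ofReal_mul, ← mul_inv, Real.mul_self_sqrt (by norm_num)]
  simp
theorem κ_conj : starRingEnd ℂ κ = κ := Complex.conj_ofReal _

noncomputable def e (x : ℕ) (s : Finset ℕ) : H Y := κ • (sg x s • δ (x, s) + δ (x, fl x s))

theorem δ_eq (x : ℕ) (s : Finset ℕ) : δ (x, s) = κ • (sg x s • e x s + e x (fl x s)) := by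
  simp only [e, fl_fl, sg_fl]
  match_scalars
  · linear_combination (-(κ * κ)) * sg_sq x s - 2 * κ_sq
  · ring

theorem inner_four {E : Type} [NormedAddCommGroup E] [InnerProductSpace ℂ E] (x y : ℕ)
    (s t : Finset ℕ) (a b c d : E) : inner ℂ (κ • (sg x s • a + b)) (κ • (sg y t • c + d)) =
      (sg x s * sg y t * inner ℂ a c + sg x s * inner ℂ a d + sg y t * inner ℂ b c +
        inner ℂ b d) / 2 := by
  simp only [inner_smul_left, inner_smul_right, inner_add_left, inner_add_right, sg_conj, κ_conj]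
  linear_combination (sg x s * sg y t * inner ℂ a c + sg x s * inner ℂ a d + sg y t * inner ℂ b c +
        inner ℂ b d) * κ_sq

theorem four (x : ℕ) (s t : Finset ℕ) (z : ℂ) :
    (sg x s * sg x t * (if s = t then z else 0) + sg x s * (if s = fl x t then z else 0) +
      sg x t * (if fl x s = t then z else 0) + if fl x s = fl x t then z else 0) / 2 =
      if s = t then z else 0 := by
  by_cases h : s = t
  · subst h
    simp [fl_ne, (fl_ne x s).symm, sg_sq]
  · by_cases h' : s = fl x t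
    · subst h'
      simp [fl_ne, (fl_ne x t).symm, fl_fl, sg_fl]
    · simp [h, h', fl_eq, fl_fl]

theorem inner_e (x y : ℕ) (s t : Finset ℕ) :
    inner ℂ (e x s) (e y t) = if x = y ∧ s = t then 1 else 0 := by
  rw [e, e, inner_four]
  by_cases h : x = y
  · subst h
    simpa [inner_δ] using four x s t 1
  · simp [inner_δ, h]

theorem e_on (s : Finset ℕ) : Orthonormal ℂ fun x => e x s :=
  orthonormal_iff_ite.2 fun x y => by simp [inner_e]

noncomputable def V (s : Finset ℕ) : H ℕ →ₗᵢ[ℂ] H Y := (e_on s).orthogonalFamily.linearIsometry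

theorem V_δ (s : Finset ℕ) (x : ℕ) : V s (δ x) = e x s := by
  rw [V, δ, @OrthogonalFamily.linearIsometry_apply_single _ _ _ _ _ _ _ _ _ _ _ _ (_)]
  simp

theorem V_orth : OrthogonalFamily ℂ (fun _ : Finset ℕ => H ℕ) V := by
  intro s t hst f g
  have h1 : ∀ x, inner ℂ (e x s) (V t g) = 0 := fun x => by
    have : (innerSL ℂ (e x s)).comp (V t).toContinuousLinearMap = 0 :=
      ext_δ fun y => by simp [V_δ, inner_e, hst]
    exact DFunLike.congr_fun this g
  have : (innerSL ℂ (V t g)).comp (V s).toContinuousLinearMap = 0 :=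
    ext_δ fun y => by simp [V_δ, inner_eq_zero_symm.1 (h1 y)]
  exact inner_eq_zero_symm.1 (DFunLike.congr_fun this f)

abbrev L : Type := lp (fun _ : Finset ℕ => H ℕ) 2

noncomputable def W : L →L[ℂ] H Y := V_orth.linearIsometry.toContinuousLinearMap

theorem W_W (f : L) : W.adjoint (W f) = f :=
  DFunLike.congr_fun V_orth.linearIsometry.adjoint_comp_self f

theorem W_single (s : Finset ℕ) (f : H ℕ) : W (lp.single 2 s f) = V s f :=
  V_orth.linearIsometry_apply_single f

noncomputable def D (a : H ℕ →L[ℂ] H ℕ) : L →L[ℂ] L :=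
  lp.mapCLM 2 (fun _ => a) (norm_nonneg a) fun _ => le_rfl

theorem D_apply (a : H ℕ →L[ℂ] H ℕ) (f : L) (s : Finset ℕ) : D a f s = a (f s) := rfl

noncomputable def Φ : (H ℕ →L[ℂ] H ℕ) →⋆ₙₐ[ℂ] (H Y →L[ℂ] H Y) where
  toFun a := W ∘L D a ∘L W.adjoint
  map_smul' c a := by
    have : D (c • a) = c • D a := by ext f s; rfl
    simp [this]
  map_zero' := by
    have : D 0 = 0 := by ext f s; rfl
    simp [this]
  map_add' a b := by
    have : D (a + b) = D a + D b := by ext f s; rfl
    simp [this, ContinuousLinearMap.add_comp]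
  map_mul' a b := by
    refine ContinuousLinearMap.ext fun f => ?_
    simp only [mul_apply_eq_comp, ContinuousLinearMap.comp_apply, W_W]
    rfl
  map_star' a := by
    have : D (star a) = (D a).adjoint := (ContinuousLinearMap.eq_adjoint_iff _ _).2 fun f g => by
      rw [lp.inner_eq_tsum, lp.inner_eq_tsum]
      simp only [D_apply, ContinuousLinearMap.star_eq_adjoint,
        ContinuousLinearMap.adjoint_inner_left]
    rw [this]
    simp [ContinuousLinearMap.star_eq_adjoint, ContinuousLinearMap.adjoint_comp,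
      ContinuousLinearMap.comp_assoc]

theorem Φ_e (a : H ℕ →L[ℂ] H ℕ) (y : ℕ) (t : Finset ℕ) : Φ a (e y t) = V t (a (δ y)) := by
  show W (D a (W.adjoint (e y t))) = _
  rw [← V_δ, ← W_single, W_W, ← W_single]
  congr 1
  ext s : 2
  rw [D_apply, lp.single_apply, lp.single_apply, Pi.single_apply, Pi.single_apply]
  split_ifs <;> simp

theorem inner_Φ (a : H ℕ →L[ℂ] H ℕ) (x y : ℕ) (s t : Finset ℕ) :
    inner ℂ (e x s) (Φ a (e y t)) = if s = t then inner ℂ (δ x) (a (δ y)) else 0 := by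
  rw [Φ_e, ← V_δ]
  split_ifs with h
  · rw [h, LinearIsometry.inner_map_map]
  · exact V_orth h _ _

theorem Φ_inj : Function.Injective Φ := fun a b h => ext_δ fun y =>
  (V ∅).injective (by rw [← Φ_e, ← Φ_e, h])

theorem Φ_maps : MapsTo Φ (@roe _ mX) (@roe _ mY) := by
  refine MapsTo.closure ?_ (NonUnitalStarAlgHom.isometry Φ Φ_inj).continuous
  rintro a ⟨r, hr⟩
  refine ⟨r, ?_⟩
  rintro ⟨x, s⟩ ⟨y, t⟩ h
  rw [entry, δ_eq, δ_eq y, map_smul, map_add, map_smul, inner_four] at h
  simp only [inner_Φ] at h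
  have h0 : inner ℂ (δ x) (a (δ y)) ≠ 0 := fun h' => h (by simp [h'])
  have h1 : (ρ {x} {y} : ℝ) ≤ r := hr x y h0
  refine max_le (a := (ρ {x} {y} : ℝ)) (b := (ρ s t : ℝ)) h1 (le_trans ?_ h1)
  rw [Nat.cast_le, ρ_le]
  intro i hi
  by_cases hxy : x = y
  · subst hxy
    rw [four] at h
    rw [show s = t by simpa [h0] using h]
  · have h2 := ρ_le.1 (le_refl (ρ {x} {y}))
    have hx : i ≠ x := by
      rintro rfl
      exact hxy (by simpa using h2 i hi)
    have hy : i ≠ y := by
      rintro rfl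
      exact hxy (by simpa [eq_comm] using h2 i hi)
    have h3 : i ∈ fl x s ↔ i ∈ s := by simp [mem_fl, hx]
    have h4 : i ∈ fl y t ↔ i ∈ t := by simp [mem_fl, hy]
    by_contra hcon
    refine h ?_
    rw [if_neg, if_neg, if_neg, if_neg]
    · simp
    · exact fun h5 => hcon (by rw [← h3, ← h4, h5])
    · exact fun h5 => hcon (by rw [← h3, h5])
    · exact fun h5 => hcon (by rw [← h4, h5])
    · exact fun h5 => hcon (by rw [h5])

noncomputable def E (x y : ℕ) : H ℕ →L[ℂ] H ℕ := InnerProductSpace.rankOne ℂ (δ x) (δ y)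

theorem E_mem (x y : ℕ) : E x y ∈ @roe _ mX := subset_closure ⟨(ρ {x} {y} : ℝ), fun a b h => by
  simp only [entry, E, InnerProductSpace.rankOne_apply, inner_smul_right, inner_δ] at h
  have h1 : y = b := by by_contra h'; simp [h'] at h
  have h2 : a = x := by by_contra h'; simp [h'] at h
  subst h1 h2
  exact le_rfl⟩

theorem Φ_E (x y z : ℕ) (t : Finset ℕ) : Φ (E x y) (e z t) = if y = z then e x t else 0 := by
  rw [Φ_e, E, InnerProductSpace.rankOne_apply, map_smul, V_δ, inner_δ]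
  split_ifs <;> simp [*]

theorem key (p : H Y →L[ℂ] H Y) (hp : p ∈ @roe _ mY) (hp' : IsStarProjection p)
    (hc : ∀ a ∈ @roe _ mX, p * Φ a = Φ a * p) (hK : IsCompactOperator (p * Φ (E 0 0) * p :)) :
    p * Φ (E 0 0) * p = 0 := by
  have hK' : p * Φ (E 0 0) * p = p * Φ (E 0 0) := by
    rw [mul_assoc, ← hc _ (E_mem 0 0), ← mul_assoc, hp'.isIdempotentElem.eq]
  rw [hK'] at hK ⊢
  have hq : ∀ x s t, inner ℂ (e x s) (p (e x t)) = inner ℂ (e 0 s) (p (e 0 t)) := by
    intro x s t
    have h1 : p (e x t) = Φ (E x 0) (p (e 0 t)) := by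
      have := DFunLike.congr_fun (hc _ (E_mem x 0)) (e 0 t)
      simpa [Φ_E] using this
    rw [h1, ← ContinuousLinearMap.adjoint_inner_left, ← ContinuousLinearMap.star_eq_adjoint,
      ← map_star]
    have : star (E x 0) = E 0 x := InnerProductSpace.adjoint_rankOne _ _
    rw [this, Φ_E, if_pos rfl]
  have hs : ∀ s, p (e 0 s) = 0 := by
    intro s
    have hon : Orthonormal ℂ fun n => e 0 (fl n s) := orthonormal_iff_ite.2 fun a b => by
      rw [inner_e]
      refine if_congr ⟨fun h => ?_, fun h => by simp [h]⟩ rfl rfl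
      exact Finset.singleton_injective (symmDiff_right_injective s h.2)
    have t1 : Tendsto (fun n => ‖inner ℂ (δ (n, s)) (p (δ (n, fl n s)))‖) atTop (𝓝 0) := by
      rw [Metric.tendsto_nhds]
      intro ε hε
      obtain ⟨r, hr⟩ := @entry_small _ mY p hp ε hε
      filter_upwards [eventually_ge_atTop ⌈r⌉₊] with n hn
      rw [dist_zero_right, norm_norm]
      refine hr _ _ (lt_max_of_lt_right (c := (ρ s (fl n s) : ℝ)) ((Nat.le_ceil r).trans_lt ?_))
      rw [Nat.cast_lt]
      by_contra h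
      have := ρ_le.1 (not_lt.1 h) n hn
      simp [mem_fl] at this
    have t2 := on_null hon (p (e 0 s))
    have t3 := compact_null hon hK
    have hsa : ∀ u v, inner ℂ u (p v) = inner ℂ (p u) v := fun u v => by
      rw [← ContinuousLinearMap.adjoint_inner_left, ← ContinuousLinearMap.star_eq_adjoint,
        hp'.isSelfAdjoint.star_eq]
    have t4 := (((t1.const_mul 2).add t2).add t2).add t3
    have h5 : ‖inner ℂ (e 0 s) (p (e 0 s))‖ ≤ 0 := by
      refine ge_of_tendsto' (by simpa using t4) fun n => ?_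
      have h6 := inner_four n n s (fl n s) (e n s) (e n (fl n s)) (p (e n (fl n s)))
        (p (e n (fl n (fl n s))))
      rw [← δ_eq, ← map_smul, ← map_add, ← map_smul, ← δ_eq, fl_fl, sg_fl] at h6
      simp only [hq n] at h6
      have h7 : inner ℂ (e 0 s) (p (e 0 s)) = sg n s * (2 * inner ℂ (δ (n, s)) (p (δ (n, fl n s))) +
          inner ℂ (e 0 s) (p (e 0 (fl n s))) - inner ℂ (e 0 (fl n s)) (p (e 0 s)) +
          sg n s * inner ℂ (e 0 (fl n s)) (p (e 0 (fl n s)))) := by
        rw [h6]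
        linear_combination (sg n s * inner ℂ (e 0 s) (p (e 0 (fl n s))) -
          inner ℂ (e 0 s) (p (e 0 s))) * sg_sq n s
      have h8 : ‖sg n s‖ = 1 := by by_cases h : n ∈ s <;> simp [sg, h]
      rw [h7, norm_mul, h8, one_mul]
      refine (norm_add_le _ _).trans (add_le_add ((norm_sub_le _ _).trans (add_le_add
        ((norm_add_le _ _).trans (add_le_add (by simp) ?_)) le_rfl)) ?_)
      · rw [hsa, norm_inner_symm]
      · simp [h8, Φ_E]
    have h9 : inner ℂ (p (e 0 s)) (p (e 0 s)) = 0 := by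
      rw [← hsa, ← mul_apply_eq_comp, hp'.isIdempotentElem.eq]
      exact norm_le_zero_iff.1 h5
    exact inner_self_eq_zero.1 h9
  have h10 : ∀ y t, p (Φ (E 0 0) (e y t)) = 0 := fun y t => by
    rw [Φ_E]
    split_ifs <;> simp [hs]
  refine ext_δ ?_
  rintro ⟨y, t⟩
  rw [δ_eq]
  simp [h10]

theorem result : ∃ (X Y : Type) (_ : MetricSpace X) (_ : MetricSpace Y),
    ULF X ∧ ULF Y ∧ PropA Y ∧ ∃ Φ : B X → B Y, IsEmb Φ ∧ ∀ p, CommProj Φ p →
      ¬ RankPres (cut Φ p) ∧ ¬ (Set.InjOn (cut Φ p) (roe X) ∧ CompactPres (cut Φ p)) := by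
  refine ⟨ℕ, Y, mX, mY, ulf_X, ulf_Y, propA, Φ, ⟨fun c a b => by simp [comb, combOp], map_mul Φ,
    map_star Φ, Φ_inj, Φ_maps⟩,
    fun p ⟨hp, hp', hc⟩ => ⟨fun h => ?_, ?_⟩⟩
  · have h0 : δ (0 : ℕ) ≠ 0 := norm_ne_zero_iff.1 (by simp [norm_δ])
    have h1 := (h _ (E_mem 0 0) ⟨InnerProductSpace.isStarProjection_rankOne_self (norm_δ 0),
      InnerProductSpace.rank_rankOne h0 h0⟩).2
    have h2 : IsCompactOperator (p * Φ (E 0 0) * p :) := by
      set K := p * Φ (E 0 0) * p
      haveI : FiniteDimensional ℂ (LinearMap.range (K : H Y →ₗ[ℂ] H Y)) :=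
        Module.finite_of_rank_eq_one h1
      exact (isCompactOperator_of_locallyCompactSpace_dom K.rangeRestrict).clm_comp
        (LinearMap.range (K : H Y →ₗ[ℂ] H Y)).subtypeL
    rw [cut, mul, mul, key p hp hp' hc h2] at h1
    simp at h1
  · rintro ⟨h1, h2⟩
    have h3 := key p hp hp' hc (h2 _ (E_mem 0 0)
      (isCompactOperator_of_locallyCompactSpace_rng (ContinuousLinearMap.toSpanSingleton ℂ
        (δ (0 : ℕ))) |>.comp_clm (innerSL ℂ (δ (0 : ℕ)))))
    have h4 : E 0 0 = 0 := h1 (E_mem 0 0) (subset_closure ⟨0, fun _ _ h => by simp [entry] at h⟩)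
      (by simp [cut, mul, h3])
    have := Φ_E 0 0 0 ∅
    rw [h4, if_pos rfl] at this
    have h5 := (e_on ∅).1 0
    rw [map_zero] at this
    exact zero_ne_one ((norm_zero.symm.trans (congrArg norm this)).trans h5)

end Pool.Agent.Results.MP_ab5103_an.NoCutDown
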